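import Mathlib
import Pool.Agent.H892.ZL.Stm

/-!
# Project ZL (helper892), piece KAPH: `kap K` is homogeneous in `y`
-/

set_option autoImplicit false

namespace Pool.Agent.H415.ZL

open MvPolynomial Pool.Agent.H892.ZL

lemma xh (i : Fin 3) : IsWeightedHomogeneous wty (X (Sum.inl i) : SA) 0 :=
  isWeightedHomogeneous_X ℂ wty (Sum.inl i)

lemma yh (i : Fin 3) : IsWeightedHomogeneous wty (X (Sum.inr i) : SA) 1 :=
  isWeightedHomogeneous_X ℂ wty (Sum.inr i)

lemma xy (i j : Fin 3) :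
    IsWeightedHomogeneous wty (X (Sum.inl i) * X (Sum.inr j) : SA) 1 := (xh i).mul (yh j)

lemma gp_hom (I : Fin 6) : IsWeightedHomogeneous wty (gp I) 1 := by
  have h0 : gp 0 = X (Sum.inl 0) * X (Sum.inr 1) - X (Sum.inl 1) * X (Sum.inr 0) := rfl
  have h1 : gp 1 = X (Sum.inl 0) * X (Sum.inr 2) - X (Sum.inl 2) * X (Sum.inr 0) := rfl
  have h2 : gp 2 = X (Sum.inl 0) * 0 - 1 * X (Sum.inr 0) := rfl
  have h3 : gp 3 = X (Sum.inl 1) * X (Sum.inr 2) - X (Sum.inl 2) * X (Sum.inr 1) := rfl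
  have h4 : gp 4 = X (Sum.inl 1) * 0 - 1 * X (Sum.inr 1) := rfl
  have h5 : gp 5 = X (Sum.inl 2) * 0 - 1 * X (Sum.inr 2) := rfl
  fin_cases I
  · show IsWeightedHomogeneous wty (gp 0) 1
    rw [h0]
    exact (xy 0 1).sub (xy 1 0)
  · show IsWeightedHomogeneous wty (gp 1) 1
    rw [h1]
    exact (xy 0 2).sub (xy 2 0)
  · show IsWeightedHomogeneous wty (gp 2) 1
    rw [h2, mul_zero, one_mul, zero_sub]
    exact (yh 0).neg
  · show IsWeightedHomogeneous wty (gp 3) 1
    rw [h3]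
    exact (xy 1 2).sub (xy 2 1)
  · show IsWeightedHomogeneous wty (gp 4) 1
    rw [h4, mul_zero, one_mul, zero_sub]
    exact (yh 1).neg
  · show IsWeightedHomogeneous wty (gp 5) 1
    rw [h5, mul_zero, one_mul, zero_sub]
    exact (yh 2).neg

/-- **KAPH**. -/
theorem t_KAPH : S_KAPH := by
  intro n K hK
  have e : kap K = ∑ d ∈ K.support, C (K.coeff d) * ∏ i, gp i ^ d i := by
    unfold kap
    rw [aeval_def, eval₂_eq']
    rfl
  rw [e]
  refine IsWeightedHomogeneous.sum _ _ n fun d hd => ?_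
  have h1 : IsWeightedHomogeneous wty (∏ i, gp i ^ d i) (∑ i : Fin 6, d i) := by
    have h2 := IsWeightedHomogeneous.prod (w := wty) Finset.univ (fun i : Fin 6 => gp i ^ d i)
      (fun i => d i • 1) (fun i _ => (gp_hom i).pow (d i))
    have h3 : ∑ i : Fin 6, d i • 1 = ∑ i : Fin 6, d i :=
      Finset.sum_congr rfl fun i _ => by rw [smul_eq_mul, mul_one]
    rwa [h3] at h2
  have h4 : ∑ i : Fin 6, d i = n := by
    have h5 := hK (mem_support_iff.1 hd)
    rw [Finsupp.weight_apply, Finsupp.sum_fintype _ _ (fun i => by simp)] at h5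
    rw [← h5]
    refine Finset.sum_congr rfl fun i _ => ?_
    simp
  rw [h4] at h1
  exact h1.C_mul _

end Pool.Agent.H415.ZL
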